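import Pool.Agent.H44.MS.Basics

/-!
# Microsquares, module DNb: the mean value of the excess
-/

set_option autoImplicit false

namespace Pool.Agent.H3.MS

open Finset Real Pool.Agent.H44.MS

/-- the factor of the block `k` when the block `i` is the exceptional one -/
noncomputable def dnF (s i k : ℕ) (U : Finset ℕ) : ℝ :=
  if k = i then ic (U.card = 2 * (s + k) + 1) / ∏ p ∈ U, (p : ℝ)
  else ic (U.card ≤ 2 * (s + k)) * (-1) ^ U.card / ∏ p ∈ U, (p : ℝ)

/-- the term of the sum -/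
theorem dn_key {s z I : ℕ} {T : Finset ℕ} (hI : ∀ p ∈ T, bi z p < I)
    (hT : (∏ p ∈ T, p).primeFactors = T) :
    -(ic (Ok1 s z (∏ p ∈ T, p)) * (-1) ^ T.card) / ∏ p ∈ T, (p : ℝ) =
      ∑ i ∈ range I, ∏ k ∈ range I, dnF s i k (T.filter (fun p => bi z p = k)) := by
  have hom : ∀ k, om z k (∏ p ∈ T, p) = (T.filter (fun p => bi z p = k)).card := by
    intro k
    unfold om
    rw [hT]
  have hempty : ∀ k, I ≤ k → (T.filter (fun p => bi z p = k)).card = 0 := by
    intro k hk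
    rw [Finset.card_eq_zero, Finset.filter_eq_empty_iff]
    intro p hp h
    have := hI p hp
    omega
  have hmaps : ∀ p ∈ T, bi z p ∈ range I := fun p hp => Finset.mem_range.2 (hI p hp)
  have hprod : ∏ k ∈ range I, ∏ p ∈ T.filter (fun p => bi z p = k), (p : ℝ) = ∏ p ∈ T, (p : ℝ) :=
    Finset.prod_fiberwise_of_maps_to hmaps _
  have hcard : T.card = ∑ k ∈ range I, (T.filter (fun p => bi z p = k)).card :=
    Finset.card_eq_sum_card_fiberwise hmaps
  by_cases hok : Ok1 s z (∏ p ∈ T, p)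
  · obtain ⟨i, hi, hk⟩ := id hok
    rw [hom] at hi
    have hiI : i ∈ range I := by
      rw [Finset.mem_range]
      by_contra h
      have := hempty i (not_lt.1 h)
      omega
    rw [ic_pos hok, one_mul, Finset.sum_eq_single i]
    · have h1 : ∀ k ∈ range I, dnF s i k (T.filter (fun p => bi z p = k)) =
          (if k = i then -1 else 1) * (-1) ^ (T.filter (fun p => bi z p = k)).card /
            ∏ p ∈ T.filter (fun p => bi z p = k), (p : ℝ) := by
        intro k _
        unfold dnF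
        split_ifs with h
        · subst h
          rw [ic_pos hi, hi, pow_succ, pow_mul]
          norm_num
        · have h2 := hk k h
          rw [hom] at h2
          rw [ic_pos h2]
      rw [Finset.prod_congr rfl h1, Finset.prod_div_distrib, hprod, Finset.prod_mul_distrib,
        Finset.prod_pow_eq_pow_sum, ← hcard, Finset.prod_ite_eq', if_pos hiI]
      ring
    · intro j hj hji
      refine Finset.prod_eq_zero hiI ?_
      unfold dnF
      rw [if_neg (Ne.symm hji), ic_neg (by omega)]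
      simp
    · exact fun h => absurd hiI h
  · rw [ic_neg hok, zero_mul, neg_zero, zero_div]
    symm
    refine Finset.sum_eq_zero fun i hi => ?_
    by_contra hne
    rw [← Ne, Finset.prod_ne_zero_iff] at hne
    apply hok
    refine ⟨i, ?_, fun k hk => ?_⟩
    · have h1 := hne i hi
      unfold dnF at h1
      rw [if_pos rfl] at h1
      rw [hom]
      exact ic_ne_zero (left_ne_zero_of_mul h1)
    · rw [hom]
      by_cases hkI : k < I
      · have h1 := hne k (Finset.mem_range.2 hkI)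
        unfold dnF at h1
        rw [if_neg hk] at h1
        exact ic_ne_zero (left_ne_zero_of_mul (left_ne_zero_of_mul h1))
      · rw [hempty k (not_lt.1 hkI)]
        exact Nat.zero_le _

theorem dn_eps (Q : ℝ) (hQ : 0 ≤ Q) (s I : ℕ) :
    ∑ k ∈ range I, Q / 16 ^ (2 * (s + k) + 1) ≤ Q / 256 ^ s := by
  have h1 : ∀ k ∈ range I, Q / 16 ^ (2 * (s + k) + 1) ≤ Q / 256 ^ s / 16 * (1 / 2) ^ k := by
    intro k _
    have e1 : (16 : ℝ) ^ (2 * (s + k) + 1) = 256 ^ s * 16 * 256 ^ k := by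
      rw [pow_succ, pow_mul, pow_add]
      norm_num
      ring
    rw [e1, ← div_div, ← div_div, div_eq_mul_inv (Q / 256 ^ s / 16)]
    refine mul_le_mul_of_nonneg_left ?_ (by positivity)
    rw [← inv_pow]
    exact pow_le_pow_left₀ (by norm_num) (by norm_num) k
  refine (Finset.sum_le_sum h1).trans ?_
  rw [← Finset.mul_sum]
  have h2 : ∑ k ∈ range I, (1 / 2 : ℝ) ^ k ≤ 2 := sum_geometric_two_le I
  have h3 : 0 ≤ Q / 256 ^ s := by positivity
  calc Q / 256 ^ s / 16 * ∑ k ∈ range I, (1 / 2 : ℝ) ^ k ≤ Q / 256 ^ s / 16 * 2 :=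
        mul_le_mul_of_nonneg_left h2 (by positivity)
    _ ≤ Q / 256 ^ s := by linarith

/-- bounds of the factors -/
theorem dn_fac (hBK : T_BK) {B : Finset ℕ} {H : ℝ} (hH : 0 < H) (hB : ∀ p ∈ B, p.Prime)
    (hs : ∑ p ∈ B, 1 / (p : ℝ) ≤ H) {s k : ℕ} (i : ℕ)
    (hQ : (4 : ℝ) ^ H * Real.exp (32 * H) / 16 ^ (2 * (s + k) + 1) ≤ 1) :
    0 ≤ ∑ U ∈ B.powerset, dnF s i k U ∧
    ∑ U ∈ B.powerset, dnF s i k U ≤
      (if k = i then (4 : ℝ) ^ H * Real.exp (32 * H) / 16 ^ (2 * (s + k) + 1) else 1) *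
        (1 + (4 : ℝ) ^ H * Real.exp (32 * H) / 16 ^ (2 * (s + k) + 1)) *
        ∏ p ∈ B, (1 - 1 / (p : ℝ)) := by
  obtain ⟨h1, -, h3, h4, -⟩ := hBK B H 1 (2 * (s + k)) hB le_rfl hs
  obtain ⟨V, hV⟩ : ∃ V, V = ∏ p ∈ B, (1 - 1 / (p : ℝ)) := ⟨_, rfl⟩
  obtain ⟨q, hq⟩ : ∃ q, q = (4 : ℝ) ^ H * Real.exp (32 * H) / 16 ^ (2 * (s + k) + 1) := ⟨_, rfl⟩
  rw [← hV] at h1 h3 ⊢
  rw [← hq] at hQ ⊢
  have h4H : 0 < (4 : ℝ) ^ H := Real.rpow_pos_of_pos (by norm_num) _
  have hq0 : 0 ≤ q := by rw [hq]; positivity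
  have hV0 : 0 < V := lt_of_lt_of_le (Real.rpow_pos_of_pos (by norm_num) _) h3
  have hqV : Real.exp (32 * H) / 16 ^ (2 * (s + k) + 1) ≤ q * V := by
    have e1 : (4 : ℝ) ^ H * (4 : ℝ) ^ (-H) = 1 := by
      rw [← Real.rpow_add (by norm_num), add_neg_cancel, Real.rpow_zero]
    calc Real.exp (32 * H) / 16 ^ (2 * (s + k) + 1) = q * (4 : ℝ) ^ (-H) := by
          rw [hq]
          calc Real.exp (32 * H) / 16 ^ (2 * (s + k) + 1) =
              (4 : ℝ) ^ H * (4 : ℝ) ^ (-H) * (Real.exp (32 * H) / 16 ^ (2 * (s + k) + 1)) := by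
                rw [e1, one_mul]
            _ = _ := by ring
      _ ≤ q * V := mul_le_mul_of_nonneg_left h3 hq0
  by_cases hki : k = i
  · have e2 : ∑ U ∈ B.powerset, dnF s i k U =
        ∑ U ∈ B.powerset, ic (U.card = 2 * (s + k) + 1) / ∏ p ∈ U, (p : ℝ) := by
      refine Finset.sum_congr rfl fun U _ => ?_
      unfold dnF
      rw [if_pos hki]
    rw [e2, if_pos hki]
    constructor
    · refine Finset.sum_nonneg fun U _ => ?_
      exact div_nonneg (ic_nonneg _) (Finset.prod_nonneg fun p _ => Nat.cast_nonneg p)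
    · refine h4.trans ?_
      have h5 : Real.exp (16 * H) / 16 ^ (2 * (s + k) + 1) ≤
          Real.exp (32 * H) / 16 ^ (2 * (s + k) + 1) := by
        gcongr
        linarith
      have h6 : q * V ≤ q * (1 + q) * V := by
        have : 0 ≤ q * q * V := by positivity
        nlinarith
      linarith
  · have e2 : ∑ U ∈ B.powerset, dnF s i k U =
        ∑ U ∈ B.powerset, (ic (U.card ≤ 2 * (s + k)) * (-1) ^ U.card) / ∏ p ∈ U, (p : ℝ) := by
      refine Finset.sum_congr rfl fun U _ => ?_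
      unfold dnF
      rw [if_neg hki]
    have h5 := h1 (fun U => ic (U.card ≤ 2 * (s + k)) * (-1) ^ U.card) (fun U _ hU => by
      rw [ic_pos hU, one_mul]) (fun U _ => by
      rw [one_pow, abs_mul, abs_pow, abs_neg, abs_one, one_pow, mul_one]
      exact abs_ic_le _)
    have e3 : Real.exp (16 * (1 + 1) * H) = Real.exp (32 * H) := by
      congr 1
      ring
    rw [e3] at h5
    rw [e2, if_neg hki, one_mul]
    have h6 := abs_le.1 (h5.trans hqV)
    constructor
    · have : q * V ≤ V := mul_le_of_le_one_left hV0.le hQ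
      linarith [h6.1]
    · linarith [h6.2]

theorem pf_DNb (BP : T_BP) (TR : T_TR) (BK : T_BK) (BL : T_BL) (LV : T_LV) : T_DNb := by
  obtain ⟨H, hH, hBL⟩ := BL
  obtain ⟨Q, hQ⟩ : ∃ Q, Q = (4 : ℝ) ^ H * Real.exp (32 * H) := ⟨_, rfl⟩
  have hQ0 : 0 < Q := by
    rw [hQ]
    have : 0 < (4 : ℝ) ^ H := Real.rpow_pos_of_pos (by norm_num) _
    positivity
  obtain ⟨S, hS⟩ := pow_unbounded_of_one_lt (Q * Real.exp 1) (by norm_num : (1 : ℝ) < 128)
  refine ⟨S, fun s hs A z hz => ?_⟩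
  have hQs : Q * Real.exp 1 ≤ 128 ^ s :=
    hS.le.trans (pow_le_pow_right₀ (by norm_num) hs)
  have hQ256 : Q ≤ 256 ^ s := by
    have h1 : Q ≤ Q * Real.exp 1 := by
      have := Real.one_le_exp (zero_le_one (α := ℝ))
      nlinarith
    exact (h1.trans hQs).trans (pow_le_pow_left₀ (by norm_num) (by norm_num) s)
  obtain ⟨hTR1, hTR2, -, hTR4⟩ := TR A z
  obtain ⟨P, hP⟩ : ∃ P, P = PA A z := ⟨_, rfl⟩
  rw [← hP] at hTR1 hTR4
  obtain ⟨I, hI⟩ : ∃ I, I = z + 1 := ⟨_, rfl⟩
  have hbI : ∀ p, bi z p < I := by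
    intro p
    unfold bi
    have h1 : Nat.log p z ≤ z := Nat.log_le_self _ _
    have h2 : Nat.log 2 (Nat.log p z) ≤ Nat.log p z := Nat.log_le_self _ _
    omega
  -- the sum over sets of primes
  have hsum : ∑ d ∈ Icc 1 (z ^ (4 * s + 5)), kap A s z d / d =
      ∑ T ∈ P.powerset, ∑ i ∈ range I, ∏ k ∈ range I,
        dnF s i k (T.filter (fun p => bi z p = k)) := by
    have h1 : ∀ d : ℕ, kap A s z d / d = ic (An A z d) * (-(ic (Ok1 s z d) * mu d) / d) := by
      intro d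
      unfold kap
      rw [ic_and]
      ring
    simp only [h1]
    rw [hTR2, ← hP]
    refine Finset.sum_congr rfl fun T hT => ?_
    obtain ⟨h2, h3, h4, h5⟩ := hTR1 T hT
    rw [← dn_key (fun p _ => hbI p) h2, h5, Nat.cast_prod]
    by_cases hok : Ok1 s z (∏ p ∈ T, p)
    · rw [ic_pos ((LV A s z _ hz).2 ⟨h4, hok⟩), one_mul]
    · rw [ic_neg hok]
      simp
  rw [hsum, Finset.sum_comm]
  have hBP : ∀ i ∈ range I, ∑ T ∈ P.powerset, ∏ k ∈ range I,
      dnF s i k (T.filter (fun p => bi z p = k)) =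
      ∏ k ∈ range I, ∑ U ∈ (P.filter (fun p => bi z p = k)).powerset, dnF s i k U := fun i _ =>
    (BP P (bi z) I (fun p _ => hbI p)).1 (dnF s i)
  rw [Finset.sum_congr rfl hBP]
  -- the blocks
  have hprime : ∀ k, ∀ p ∈ P.filter (fun p => bi z p = k), p.Prime ∧ 1 ≤ p ∧ p ≤ z ∧ bi z p = k := by
    intro k p hp
    rw [Finset.mem_filter, hP] at hp
    have hp1 := hp.1
    unfold PA at hp1
    classical
    simp only [Finset.mem_filter, Finset.mem_Icc] at hp1
    exact ⟨hp1.2.1, hp1.1.1, hp1.1.2, hp.2⟩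
  have hmass : ∀ k, ∑ p ∈ P.filter (fun p => bi z p = k), 1 / (p : ℝ) ≤ H := by
    intro k
    refine le_trans ?_ (hBL z k)
    have hsub : P.filter (fun p => bi z p = k) ⊆ Icc 1 z := by
      intro p hp
      obtain ⟨-, h2, h3, -⟩ := hprime k p hp
      exact Finset.mem_Icc.2 ⟨h2, h3⟩
    refine le_trans (le_of_eq ?_) (Finset.sum_le_sum_of_subset_of_nonneg hsub fun p _ _ =>
      div_nonneg (ic_nonneg _) (Nat.cast_nonneg p))
    refine Finset.sum_congr rfl fun p hp => ?_
    obtain ⟨h1, -, -, h4⟩ := hprime k p hp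
    rw [ic_pos ⟨h1, h4⟩]
  have hVA : VA A z = ∏ k ∈ range I, ∏ p ∈ P.filter (fun p => bi z p = k), (1 - 1 / (p : ℝ)) := by
    rw [hTR4]
    exact (Finset.prod_fiberwise_of_maps_to (fun p _ => Finset.mem_range.2 (hbI p)) _).symm
  have hq1 : ∀ k : ℕ, Q / 16 ^ (2 * (s + k) + 1) ≤ 1 := by
    intro k
    rw [div_le_one (by positivity)]
    refine hQ256.trans ?_
    have e1 : (256 : ℝ) ^ s = 16 ^ (2 * s) := by
      rw [pow_mul]
      norm_num
    rw [e1]
    exact pow_le_pow_right₀ (by norm_num) (by omega)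
  have hV0 : 0 ≤ VA A z := by
    rw [hVA]
    refine Finset.prod_nonneg fun k _ => Finset.prod_nonneg fun p hp => ?_
    have h1 := (hprime k p hp).1.two_le
    have h2 : (2 : ℝ) ≤ p := by exact_mod_cast h1
    rw [sub_nonneg, div_le_one (by linarith)]
    linarith
  obtain ⟨E, hE⟩ : ∃ E, E = ∑ k ∈ range I, Q / 16 ^ (2 * (s + k) + 1) := ⟨_, rfl⟩
  have hEle : E ≤ Q / 256 ^ s := by
    rw [hE]
    exact dn_eps Q hQ0.le s I
  have hE0 : 0 ≤ E := by
    rw [hE]
    exact Finset.sum_nonneg fun k _ => by positivity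
  have hone : ∀ i ∈ range I, ∏ k ∈ range I,
      ∑ U ∈ (P.filter (fun p => bi z p = k)).powerset, dnF s i k U ≤
      Q / 16 ^ (2 * (s + i) + 1) * Real.exp E * VA A z := by
    intro i hi
    have h1 : ∏ k ∈ range I, ∑ U ∈ (P.filter (fun p => bi z p = k)).powerset, dnF s i k U ≤
        ∏ k ∈ range I, ((if k = i then Q / 16 ^ (2 * (s + k) + 1) else 1) *
          (1 + Q / 16 ^ (2 * (s + k) + 1)) *
          ∏ p ∈ P.filter (fun p => bi z p = k), (1 - 1 / (p : ℝ))) := by
      refine Finset.prod_le_prod (fun k _ => ?_) fun k _ => ?_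
      · exact (dn_fac BK hH (fun p hp => (hprime k p hp).1) (hmass k) i
          (by rw [← hQ]; exact hq1 k)).1
      · rw [hQ]
        exact (dn_fac BK hH (fun p hp => (hprime k p hp).1) (hmass k) i
          (by rw [← hQ]; exact hq1 k)).2
    refine h1.trans ?_
    rw [Finset.prod_mul_distrib, Finset.prod_mul_distrib, ← hVA]
    refine mul_le_mul_of_nonneg_right ?_ hV0
    rw [Finset.prod_ite_eq', if_pos hi]
    refine mul_le_mul_of_nonneg_left ?_ (by positivity)
    rw [hE, Real.exp_sum]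
    refine Finset.prod_le_prod (fun k _ => by positivity) fun k _ => ?_
    rw [add_comm]
    exact Real.add_one_le_exp _
  refine (Finset.sum_le_sum hone).trans ?_
  rw [← Finset.sum_mul, ← Finset.sum_mul, ← hE]
  have hE1 : E ≤ 1 := hEle.trans ((div_le_one (by positivity)).2 hQ256)
  have h2 : E * Real.exp E ≤ 1 / 2 ^ s := by
    calc E * Real.exp E ≤ Q / 256 ^ s * Real.exp 1 := by
          refine mul_le_mul hEle (Real.exp_le_exp.2 hE1) (Real.exp_nonneg _) (by positivity)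
      _ = Q * Real.exp 1 / 256 ^ s := by ring
      _ ≤ 128 ^ s / 256 ^ s := by gcongr
      _ = 1 / 2 ^ s := by
          rw [← div_pow, ← one_div_pow]
          norm_num
  calc E * Real.exp E * VA A z ≤ 1 / 2 ^ s * VA A z := mul_le_mul_of_nonneg_right h2 hV0
    _ = VA A z / 2 ^ s := by ring

end Pool.Agent.H3.MS
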