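import Pool.Agent.H44.MS.Basics

/-!
# Microsquares, module R0: the logarithmic sum over the numbers without small prime factors
-/

set_option autoImplicit false

namespace Pool.Agent.H3.MS

open Finset Real Pool.Agent.H44.MS

theorem r0_rough_prime {z p : ℕ} (hp : p.Prime) : Rough z p ↔ z < p := by
  constructor
  · exact fun h => h p hp dvd_rfl
  · intro h q hq hd
    rwa [(Nat.prime_dvd_prime_iff_eq hq hp).1 hd]

/-- the completely multiplicative function `1_{rough} (n) / n` -/
noncomputable def r0f (z : ℕ) : ℕ →* ℝ where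
  toFun n := ic (Rough z n) / n
  map_one' := by rw [ic_pos (rough_one z)]; norm_num
  map_mul' m n := by
    rw [propext (rough_mul z m n), ic_and, Nat.cast_mul]
    exact mul_div_mul_comm _ _ _ _

theorem r0f_apply (z n : ℕ) : r0f z n = ic (Rough z n) / n := rfl

theorem r0f_nonneg (z n : ℕ) : 0 ≤ r0f z n := by
  rw [r0f_apply]
  exact div_nonneg (ic_nonneg _) (Nat.cast_nonneg _)

theorem r0_le_prod (z x : ℕ) : ∑ n ∈ Icc 1 x, ic (Rough z n) / n ≤
    ∏ p ∈ Icc 1 x with p.Prime, (1 - r0f z p)⁻¹ := by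
  have h1 := (EulerProduct.summable_and_hasSum_factoredNumbers_prod_filter_prime_geometric
    (f := r0f z) (fun {p} hp => by
      rw [Real.norm_of_nonneg (r0f_nonneg z p), r0f_apply]
      have h2 : (2 : ℝ) ≤ p := by exact_mod_cast hp.two_le
      rw [div_lt_one (by linarith)]
      linarith [ic_le_one (Rough z p)]) (Icc 1 x)).2
  have h2 := (hasSum_subtype_iff_indicator (f := r0f z)
    (s := Nat.factoredNumbers (Icc 1 x))).1 h1
  have h3 := sum_le_hasSum (Icc 1 x) (fun n _ => Set.indicator_nonneg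
    (fun m _ => r0f_nonneg z m) n) h2
  refine le_trans (le_of_eq ?_) h3
  refine Finset.sum_congr rfl fun n hn => ?_
  rw [Set.indicator_of_mem]
  · rfl
  · rw [Finset.mem_Icc] at hn
    refine Nat.mem_factoredNumbers.2 ⟨by omega, fun p hp => ?_⟩
    rw [Finset.mem_Icc]
    exact ⟨(Nat.prime_of_mem_primeFactorsList hp).pos,
      (Nat.le_of_dvd (by omega) (Nat.dvd_of_mem_primeFactorsList hp)).trans hn.2⟩

theorem r0_tel {x : ℕ} (hx : 1 ≤ x) : ∑ n ∈ Icc 1 x, 1 / ((n : ℝ) * (n - 1)) = 1 - 1 / x := by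
  induction x, hx using Nat.le_induction with
  | base => simp
  | succ x hx ih =>
    rw [Finset.sum_Icc_succ_top (by omega), ih]
    have : (0 : ℝ) < x := by exact_mod_cast hx
    push_cast
    rw [add_sub_cancel_right]
    field_simp
    ring

theorem r0_fac {z p : ℕ} (hp : p.Prime) :
    (1 - r0f z p)⁻¹ ≤ Real.exp (ic (z < p) / p + 1 / ((p : ℝ) * (p - 1))) := by
  have h2 : (2 : ℝ) ≤ p := by exact_mod_cast hp.two_le
  rw [r0f_apply, propext (r0_rough_prime (z := z) hp)]
  by_cases h : z < p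
  · rw [ic_pos h]
    have e1 : (1 - 1 / (p : ℝ))⁻¹ = (1 / p + 1 / ((p : ℝ) * (p - 1))) + 1 := by
      have h3 : (p : ℝ) - 1 ≠ 0 := by linarith
      field_simp
      ring
    rw [e1]
    exact Real.add_one_le_exp _
  · rw [ic_neg h, zero_div, sub_zero, inv_one, zero_add]
    exact Real.one_le_exp (by
      have : (0 : ℝ) ≤ p - 1 := by linarith
      positivity)

theorem pf_R0 (h : T_MER) : T_R0 := by
  obtain ⟨C, hC, hM⟩ := h
  refine ⟨Real.exp (1 + C / Real.log 2), Real.exp_pos _, fun z x hz hzx => ?_⟩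
  have hlog2 : 0 < Real.log 2 := Real.log_pos (by norm_num)
  have hz2 : (2 : ℝ) ≤ z := by exact_mod_cast hz
  have hx2 : (2 : ℝ) ≤ x := by exact_mod_cast hz.trans hzx
  have hlz : 0 < Real.log z := Real.log_pos (by linarith)
  have hlx : 0 < Real.log x := Real.log_pos (by linarith)
  refine (r0_le_prod z x).trans ?_
  have h1 : ∏ p ∈ Icc 1 x with p.Prime, (1 - r0f z p)⁻¹ ≤
      ∏ p ∈ Icc 1 x with p.Prime, Real.exp (ic (z < p) / p + 1 / ((p : ℝ) * (p - 1))) := by
    refine Finset.prod_le_prod (fun p hp => ?_) fun p hp => ?_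
    · have hp' := (Finset.mem_filter.1 hp).2
      have h2 : (2 : ℝ) ≤ p := by exact_mod_cast hp'.two_le
      have h3 : r0f z p ≤ 1 := by
        rw [r0f_apply, div_le_one (by linarith)]
        linarith [ic_le_one (Rough z p)]
      exact inv_nonneg.2 (by linarith)
    · exact r0_fac (Finset.mem_filter.1 hp).2
  refine h1.trans ?_
  rw [← Real.exp_sum, Finset.sum_add_distrib]
  have e1 : ∑ p ∈ Icc 1 x with p.Prime, ic (z < p) / (p : ℝ) = ∑ p ∈ Ioc z x, ic p.Prime / p := by
    rw [← sum_ic_mul]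
    have h3 : Ioc z x ⊆ Icc 1 x := by
      intro p hp
      rw [Finset.mem_Ioc] at hp
      rw [Finset.mem_Icc]
      omega
    rw [← Finset.sum_subset h3]
    · refine Finset.sum_congr rfl fun p hp => ?_
      rw [Finset.mem_Ioc] at hp
      rw [ic_pos hp.1]
      ring
    · intro p hp hp'
      rw [Finset.mem_Ioc] at hp'
      rw [Finset.mem_Icc] at hp
      rw [ic_neg (by omega : ¬ z < p)]
      ring
  have e2 : ∑ p ∈ Icc 1 x with p.Prime, 1 / ((p : ℝ) * (p - 1)) ≤ 1 := by
    have h3 : ∑ p ∈ Icc 1 x with p.Prime, 1 / ((p : ℝ) * (p - 1)) ≤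
        ∑ p ∈ Icc 1 x, 1 / ((p : ℝ) * (p - 1)) := by
      refine Finset.sum_le_sum_of_subset_of_nonneg (Finset.filter_subset _ _) fun p hp _ => ?_
      have : (1 : ℝ) ≤ p := by exact_mod_cast (Finset.mem_Icc.1 hp).1
      have h4 : (0 : ℝ) ≤ p - 1 := by linarith
      positivity
    refine h3.trans ?_
    rw [r0_tel (by omega)]
    have : (0 : ℝ) ≤ 1 / (x : ℝ) := by positivity
    linarith
  have e3 : ∑ p ∈ Ioc z x, ic p.Prime / (p : ℝ) ≤
      Real.log (Real.log x) - Real.log (Real.log z) + C / Real.log 2 := by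
    have h4 := (abs_le.1 (hM z x hz hzx).1).2
    have h5 : C / Real.log z ≤ C / Real.log 2 :=
      div_le_div_of_nonneg_left hC.le hlog2 (Real.log_le_log (by norm_num) hz2)
    linarith
  rw [e1]
  calc Real.exp (∑ p ∈ Ioc z x, ic p.Prime / (p : ℝ) +
        ∑ p ∈ Icc 1 x with p.Prime, 1 / ((p : ℝ) * (p - 1))) ≤
      Real.exp ((1 + C / Real.log 2) + (Real.log (Real.log x) - Real.log (Real.log z))) := by
        apply Real.exp_le_exp.2
        linarith
    _ = Real.exp (1 + C / Real.log 2) * (Real.log x / Real.log z) := by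
        rw [Real.exp_add, Real.exp_sub, Real.exp_log hlx, Real.exp_log hlz]

end Pool.Agent.H3.MS
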